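import Pool.Agent.L0h19.QE.Stm

set_option autoImplicit false

namespace Pool.Agent.L0h24.QE

open Finset
open Pool.Agent.L0h87.LE (ee odds)
open Pool.Agent.L0h19.QE

theorem ee_eq (t : ℝ) : ee t = Complex.exp (Complex.I * ((2 * Real.pi * t : ℝ) : ℂ)) := by
  unfold ee
  congr 1
  push_cast
  ring

theorem ee_norm (t : ℝ) : ‖ee t‖ = 1 := by
  rw [ee_eq, mul_comm]
  exact Complex.norm_exp_ofReal_mul_I _

theorem ee_add (s t : ℝ) : ee (s + t) = ee s * ee t := by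
  unfold ee
  rw [← Complex.exp_add]
  congr 1
  push_cast
  ring

/-- the lower bound of the chord -/
theorem ee_lower (t : ℝ) (ht : |t| ≤ 1 / 2) : 4 * |t| ≤ ‖1 - ee t‖ := by
  rw [norm_sub_rev, ee_eq, Complex.norm_exp_I_mul_ofReal_sub_one, norm_mul]
  have h1 : Real.sin (2 * Real.pi * t / 2) = Real.sin (Real.pi * t) := by
    congr 1
    ring
  rw [h1]
  have hp := Real.pi_pos
  have h2 : ‖Real.sin (Real.pi * t)‖ = Real.sin (Real.pi * |t|) := by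
    rw [Real.norm_eq_abs, Real.abs_sin_eq_sin_abs_of_abs_le_pi]
    · rw [abs_mul, abs_of_pos hp]
    · rw [abs_mul, abs_of_pos hp]
      nlinarith
  rw [h2]
  have h3 := Real.mul_le_sin (x := Real.pi * |t|) (by positivity) (by nlinarith)
  have h4 : 2 / Real.pi * (Real.pi * |t|) = 2 * |t| := by
    field_simp
  rw [h4] at h3
  rw [show ‖(2 : ℝ)‖ = 2 by norm_num]
  linarith

/-- the upper bound of the chord -/
theorem ee_upper (s t : ℝ) : ‖ee s - ee t‖ ≤ 2 * Real.pi * |s - t| := by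
  have h1 : ee s - ee t = ee t * (ee (s - t) - 1) := by
    rw [mul_sub, ← ee_add, mul_one]
    congr 2
    ring
  rw [h1, norm_mul, ee_norm, one_mul, ee_eq]
  refine (Real.norm_exp_I_mul_ofReal_sub_one_le (x := 2 * Real.pi * (s - t))).trans ?_
  rw [Real.norm_eq_abs, abs_mul, abs_of_pos (by positivity : (0 : ℝ) < 2 * Real.pi)]

noncomputable def cc (γ : ℝ) (i : ℕ) : ℂ := (1 - ee (8 * γ * (i + 1)))⁻¹

noncomputable def zz (γ : ℝ) (i : ℕ) : ℂ := ee (γ * (2 * (i : ℝ) + 1) ^ 2)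

theorem zz_norm (γ : ℝ) (i : ℕ) : ‖zz γ i‖ = 1 := ee_norm _

theorem zz_succ (γ : ℝ) (i : ℕ) : zz γ (i + 1) = zz γ i * ee (8 * γ * (i + 1)) := by
  unfold zz
  rw [← ee_add]
  congr 1
  push_cast
  ring

theorem low (γ : ℝ) (hγ : γ ≠ 0) (i : ℕ) (hi : 8 * |γ| * (i + 1) ≤ 1 / 2) :
    0 < 32 * |γ| * (i + 1) ∧ 32 * |γ| * (i + 1) ≤ ‖1 - ee (8 * γ * (i + 1))‖ := by
  have h0 : 0 < |γ| := abs_pos.mpr hγ
  have h1 : |8 * γ * ((i : ℝ) + 1)| = 8 * |γ| * (i + 1) := by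
    rw [abs_mul, abs_mul, abs_of_pos (by norm_num : (0 : ℝ) < 8),
      abs_of_pos (by positivity : (0 : ℝ) < (i : ℝ) + 1)]
  refine ⟨by positivity, ?_⟩
  have h2 := ee_lower (8 * γ * (i + 1)) (by rw [h1]; exact hi)
  rw [h1] at h2
  linarith

theorem cc_norm (γ : ℝ) (hγ : γ ≠ 0) (i : ℕ) (hi : 8 * |γ| * (i + 1) ≤ 1 / 2) :
    ‖cc γ i‖ ≤ 1 / (32 * |γ| * (i + 1)) := by
  obtain ⟨h1, h2⟩ := low γ hγ i hi
  unfold cc
  rw [norm_inv, ← one_div]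
  exact one_div_le_one_div_of_le h1 h2

theorem cc_diff (γ : ℝ) (hγ : γ ≠ 0) (i : ℕ) (hi : 8 * |γ| * ((i + 1 : ℕ) + 1) ≤ 1 / 2) :
    ‖cc γ (i + 1) - cc γ i‖ ≤ 1 / (16 * |γ|) * (1 / (i + 1) - 1 / (i + 2)) := by
  have h0 : 0 < |γ| := abs_pos.mpr hγ
  have hi' : 8 * |γ| * ((i : ℝ) + 1) ≤ 1 / 2 := by
    refine le_trans ?_ hi
    push_cast
    nlinarith
  obtain ⟨h1, h2⟩ := low γ hγ (i + 1) hi
  obtain ⟨h3, h4⟩ := low γ hγ i hi'
  have n1 : (1 - ee (8 * γ * ((i + 1 : ℕ) + 1))) ≠ 0 := by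
    intro h
    rw [h, norm_zero] at h2
    linarith
  have n2 : (1 - ee (8 * γ * ((i : ℝ) + 1))) ≠ 0 := by
    intro h
    rw [h, norm_zero] at h4
    linarith
  have e1 : cc γ (i + 1) - cc γ i = (ee (8 * γ * ((i + 1 : ℕ) + 1)) - ee (8 * γ * (i + 1))) /
      ((1 - ee (8 * γ * ((i + 1 : ℕ) + 1))) * (1 - ee (8 * γ * (i + 1)))) := by
    unfold cc
    rw [inv_sub_inv n1 n2]
    congr 1
    ring
  rw [e1, norm_div, norm_mul]
  have h5 := ee_upper (8 * γ * ((i + 1 : ℕ) + 1)) (8 * γ * (i + 1))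
  have h6 : |8 * γ * (((i + 1 : ℕ) : ℝ) + 1) - 8 * γ * ((i : ℝ) + 1)| = 8 * |γ| := by
    rw [show 8 * γ * (((i + 1 : ℕ) : ℝ) + 1) - 8 * γ * ((i : ℝ) + 1) = 8 * γ by push_cast; ring,
      abs_mul, abs_of_pos (by norm_num : (0 : ℝ) < 8)]
  rw [h6] at h5
  have h7 : ‖ee (8 * γ * ((i + 1 : ℕ) + 1)) - ee (8 * γ * (i + 1))‖ ≤ 64 * |γ| := by
    refine h5.trans ?_
    have := Real.pi_le_four
    nlinarith
  have h8 : 0 < (i : ℝ) + 1 := by positivity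
  have h9 : 0 < (i : ℝ) + 2 := by positivity
  calc ‖ee (8 * γ * ((i + 1 : ℕ) + 1)) - ee (8 * γ * (i + 1))‖ /
      (‖1 - ee (8 * γ * ((i + 1 : ℕ) + 1))‖ * ‖1 - ee (8 * γ * (i + 1))‖)
      ≤ 64 * |γ| / ((32 * |γ| * ((i + 1 : ℕ) + 1)) * (32 * |γ| * (i + 1))) := by
        apply div_le_div₀ (by positivity) h7 (mul_pos h1 h3)
        exact mul_le_mul h2 h4 h3.le (norm_nonneg _)
    _ = 1 / (16 * |γ|) * (1 / (i + 1) - 1 / (i + 2)) := by
        push_cast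
        field_simp
        ring

theorem part (γ : ℝ) (hγ : γ ≠ 0) (m k : ℕ) (hmk : m ≤ k) (hk : 8 * |γ| * (k + 1) ≤ 1 / 2) :
    ‖∑ i ∈ Ico m k, zz γ i + cc γ k * zz γ k‖ ≤
      1 / (32 * |γ| * (m + 1)) + 1 / (16 * |γ|) * (1 / (m + 1) - 1 / (k + 1)) := by
  have h0 : 0 < |γ| := abs_pos.mpr hγ
  induction k, hmk using Nat.le_induction with
  | base =>
    rw [Ico_self, sum_empty, zero_add, norm_mul, zz_norm, mul_one, sub_self, mul_zero, add_zero]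
    exact cc_norm γ hγ m hk
  | succ k hmk ih =>
    have hk' : 8 * |γ| * ((k : ℝ) + 1) ≤ 1 / 2 := by
      refine le_trans ?_ hk
      push_cast
      nlinarith
    have ih' := ih hk'
    obtain ⟨h3, h4⟩ := low γ hγ k hk'
    have n2 : (1 - ee (8 * γ * ((k : ℝ) + 1))) ≠ 0 := by
      intro h
      rw [h, norm_zero] at h4
      linarith
    have e1 : zz γ k = cc γ k * (zz γ k - zz γ (k + 1)) := by
      rw [zz_succ, cc]
      field_simp
    have e2 : ∑ i ∈ Ico m (k + 1), zz γ i + cc γ (k + 1) * zz γ (k + 1) =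
        (∑ i ∈ Ico m k, zz γ i + cc γ k * zz γ k) + (cc γ (k + 1) - cc γ k) * zz γ (k + 1) := by
      rw [sum_Ico_succ_top hmk]
      linear_combination e1
    rw [e2]
    refine (norm_add_le _ _).trans ?_
    rw [norm_mul, zz_norm, mul_one]
    have h5 := cc_diff γ hγ k hk
    have e3 : (1 : ℝ) / (((k + 1 : ℕ) : ℝ) + 1) = 1 / (k + 2) := by
      push_cast
      congr 1
      ring
    rw [e3]
    linarith [mul_sub (1 / (16 * |γ|)) (1 / ((m : ℝ) + 1)) (1 / (k + 1)),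
      mul_sub (1 / (16 * |γ|)) (1 / ((k : ℝ) + 1)) (1 / (k + 2)),
      mul_sub (1 / (16 * |γ|)) (1 / ((m : ℝ) + 1)) (1 / (k + 2))]

theorem part2 (γ : ℝ) (hγ : γ ≠ 0) (m k : ℕ) (hmk : m ≤ k) (hk : 8 * |γ| * (k + 1) ≤ 1 / 2) :
    ‖∑ i ∈ Ico m k, zz γ i‖ ≤ 1 / (8 * |γ| * (m + 1)) := by
  have h0 : 0 < |γ| := abs_pos.mpr hγ
  have h1 := part γ hγ m k hmk hk
  have h2 := cc_norm γ hγ k hk
  have h3 : ‖∑ i ∈ Ico m k, zz γ i‖ ≤ ‖∑ i ∈ Ico m k, zz γ i + cc γ k * zz γ k‖ + ‖cc γ k‖ := by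
    have := norm_sub_le (∑ i ∈ Ico m k, zz γ i + cc γ k * zz γ k) (cc γ k * zz γ k)
    rw [add_sub_cancel_right, norm_mul, zz_norm, mul_one] at this
    exact this
  refine h3.trans ((add_le_add h1 h2).trans ?_)
  have e1 : 1 / (32 * |γ| * ((m : ℝ) + 1)) = 1 / |γ| * (1 / (m + 1)) / 32 := by field_simp
  have e2 : 1 / (16 * |γ|) * (1 / ((m : ℝ) + 1) - 1 / (k + 1)) =
      1 / |γ| * (1 / (m + 1)) / 16 - 1 / |γ| * (1 / (k + 1)) / 16 := by field_simp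
  have e3 : 1 / (32 * |γ| * ((k : ℝ) + 1)) = 1 / |γ| * (1 / (k + 1)) / 32 := by field_simp
  have e4 : 1 / (8 * |γ| * ((m : ℝ) + 1)) = 1 / |γ| * (1 / (m + 1)) / 8 := by field_simp
  rw [e1, e2, e3, e4]
  have p1 : 0 < 1 / |γ| * (1 / ((m : ℝ) + 1)) := by positivity
  have p2 : 0 < 1 / |γ| * (1 / ((k : ℝ) + 1)) := by positivity
  linarith

theorem sum_odds (N : ℕ) (φ : ℕ → ℂ) : ∑ n ∈ odds N, φ n = ∑ i ∈ range ((N + 1) / 2), φ (2 * i + 1) := by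
  symm
  refine sum_bij (fun i _ => 2 * i + 1) ?_ ?_ ?_ ?_
  · intro i hi
    rw [mem_range] at hi
    simp only [odds, mem_filter, mem_Icc]
    omega
  · intro i _ j _ h
    omega
  · intro n hn
    simp only [odds, mem_filter, mem_Icc] at hn
    refine ⟨n / 2, ?_, ?_⟩
    · rw [mem_range]
      omega
    · omega
  · intro i _
    rfl

theorem triv (γ : ℝ) (s : Finset ℕ) : ‖∑ i ∈ s, zz γ i‖ ≤ s.card := by
  refine (norm_sum_le _ _).trans ?_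
  rw [sum_congr rfl (fun i _ => zz_norm γ i), sum_const, nsmul_eq_mul, mul_one]

theorem t_INT : S_INT := by
  intro γ N δ hγ hN hδ hδ1
  have h0 : 0 < |γ| := abs_pos.mpr hγ
  have hN' : (1 : ℝ) ≤ N := by exact_mod_cast hN
  set K := (N + 1) / 2 with hK
  have hK2 : (K : ℝ) ≤ (N + 1) / 2 := by
    have : 2 * K ≤ N + 1 := by omega
    have h : (2 : ℝ) * K ≤ N + 1 := by exact_mod_cast this
    linarith
  have e1 : ∑ n ∈ odds N, ee (γ * (n : ℝ) ^ 2) = ∑ i ∈ range K, zz γ i := by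
    rw [sum_odds N (fun n => ee (γ * (n : ℝ) ^ 2))]
    refine sum_congr rfl fun i _ => ?_
    simp only [zz]
    push_cast
    rfl
  rw [e1]
  have hpos : 0 ≤ δ * N := by positivity
  have hpos2 : 0 ≤ 2 / (δ * |γ| * N) := by positivity
  have hpos3 : 0 ≤ 20 * |γ| * (N : ℝ) ^ 2 := by positivity
  by_cases hc : 1 / 32 ≤ |γ| * N
  · have h1 := triv γ (range K)
    rw [card_range] at h1
    have h2 : 20 * |γ| * (N : ℝ) ^ 2 ≥ 20 / 32 * N := by nlinarith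
    linarith
  · push Not at hc
    by_cases hm : K ≤ ⌊δ * N⌋₊
    · have h1 := triv γ (range K)
      rw [card_range] at h1
      have h2 : (K : ℝ) ≤ δ * N := (Nat.cast_le.mpr hm).trans (Nat.floor_le hpos)
      linarith
    · push Not at hm
      have h1 : ∑ i ∈ range K, zz γ i = ∑ i ∈ range ⌊δ * N⌋₊, zz γ i + ∑ i ∈ Ico ⌊δ * N⌋₊ K, zz γ i := by
        rw [range_eq_Ico, range_eq_Ico, sum_Ico_consecutive _ (Nat.zero_le _) hm.le]
      rw [h1]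
      refine (norm_add_le _ _).trans ?_
      have h2 := triv γ (range ⌊δ * N⌋₊)
      rw [card_range] at h2
      have h3 : ((⌊δ * N⌋₊ : ℕ) : ℝ) ≤ δ * N := Nat.floor_le hpos
      have h4 : 8 * |γ| * ((K : ℝ) + 1) ≤ 1 / 2 := by
        have : (K : ℝ) + 1 ≤ 2 * N := by linarith
        nlinarith
      have h5 := part2 γ hγ ⌊δ * N⌋₊ K hm.le h4
      have h6 : δ * N < (⌊δ * N⌋₊ : ℕ) + 1 := Nat.lt_floor_add_one _
      have h7 : 1 / (8 * |γ| * ((⌊δ * N⌋₊ : ℕ) + 1)) ≤ 2 / (δ * |γ| * N) := by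
        rw [div_le_div_iff₀ (by positivity) (by positivity)]
        nlinarith [mul_lt_mul_of_pos_left h6 h0]
      linarith

end Pool.Agent.L0h24.QE
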